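import Pool.Agent.U307.RAD.Main3
import Pool.Agent.U307.RAD.Ext3

/-!
# The bound `(1/q)_n / (1/p)_n` for powers of the Beurling transform: all angular types but one

A function `f` has angular type `m` if `f (r e^{iθ}) = e^{i m θ} φ(r)`. The near extremal functions for
`T ^ n` on `L ^ p`, `p > 2`, are of type `2 n`. Here the inequality of the question is proved for all
`n ≥ 1`, all real `p ≥ 2` and all Schwartz functions of any type `m ≠ 2 n`, where the norm of `T ^ n`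
is even at most `(6.5 n) ^ (1 - 2/p)`. For `m ≤ n` it holds with a factor which tends to `0` for
`n → ∞`, `p > 2`. The same is true for sums of `N` such functions if `N (6.5 n) ^ (1 - 2/p)` is at most
the constant of the question. Together with the theorems of helper282 (`n = 2`) and helper588
(`p ≥ exp (32 n²)`) on the type `2 n`, the inequality holds on every angular type if `n = 2` or
`p ≥ exp (32 n²)`.

An outline of the proof is in the file `AllTypesButOne` of `MP_3dd6d4_an`. The comparison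
with the constant uses `(1/q)_n / (1/p)_n ≥ (6.5 n) ^ (1 - 2/p)`.
-/

set_option autoImplicit false

open MeasureTheory

namespace Pool.Agent.Results.MP_dd244f_an.AllTypesButOne

/-- The `n`-th power of the Beurling transform of a Schwartz function: the Fourier multiplier with
symbol `(conj ξ / ξ) ^ n`, in the literal form of the frozen statement. -/
noncomputable def T (n : ℕ) (f : SchwartzMap ℂ ℂ) (z : ℂ) : ℂ :=
  ∫ ξ : ℂ,
    Complex.exp (2 * (Real.pi : ℂ) * Complex.I * ((z.re * ξ.re + z.im * ξ.im : ℝ) : ℂ)) *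
      ((starRingEnd ℂ ξ / ξ) ^ n *
        ∫ w : ℂ, Complex.exp (-(2 * (Real.pi : ℂ) * Complex.I *
          ((w.re * ξ.re + w.im * ξ.im : ℝ) : ℂ))) * f w)

/-- The constant `(1/q)_n / (1/p)_n` of the question. -/
noncomputable def K (n : ℕ) (p : ℝ) : ℝ :=
  (ascPochhammer ℝ n).eval (1 - 1 / p) / (ascPochhammer ℝ n).eval (1 / p)

/-- `f` has angular type `m`: `f (r e^{iθ}) = e^{i m θ} φ(r)`. -/
def HasType (m : ℤ) (f : SchwartzMap ℂ ℂ) : Prop := ∀ a z : ℂ, ‖a‖ = 1 → f (a * z) = a ^ m * f z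

/-- The inequality `‖T ^ n f‖_p ≤ C ‖f‖_p`. -/
def Bound (n : ℕ) (p C : ℝ) (f : SchwartzMap ℂ ℂ) : Prop :=
  eLpNorm (T n f) (ENNReal.ofReal p) volume ≤
    ENNReal.ofReal C * eLpNorm (fun z : ℂ => f z) (ENNReal.ofReal p) volume

/-- Let `n ≥ 1` and let `p ≥ 2` be real.
(1) If `m ≠ 2 n` and `f` is of type `m`, then `‖T ^ n f‖_p ≤ (6.5 n) ^ (1 - 2/p) ‖f‖_p`, and this is at
most `K n p ‖f‖_p`.
(2) If `m ≤ n` and `f` is of type `m`, then `‖T ^ n f‖_p ≤ (n ^ (-1/4)) ^ (1 - 2/p) K n p ‖f‖_p`.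
(3) The inequality `‖T ^ n f‖_p ≤ K n p ‖f‖_p` of the question holds for `f = Σ_{m ∈ s} f_m` with `f_m` of
type `m`, if `s` is a finite set of integers, `2 n ∉ s`, and `|s| (6.5 n) ^ (1 - 2/p) ≤ K n p`.
(4) It holds for all `f` of any type `m` if `n = 2` or `p ≥ exp (32 n²)`. -/
theorem result (n : ℕ) (p : ℝ) (hn : 1 ≤ n) (hp : 2 ≤ p) :
    (∀ (m : ℤ) (f : SchwartzMap ℂ ℂ), m ≠ 2 * n → HasType m f →
      Bound n p ((13 / 2 * (n : ℝ)) ^ (1 - 2 / p)) f ∧ Bound n p (K n p) f) ∧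
    (∀ (m : ℤ) (f : SchwartzMap ℂ ℂ), m ≤ n → HasType m f →
      Bound n p (((n : ℝ) ^ (-(1 / 4) : ℝ)) ^ (1 - 2 / p) * K n p) f) ∧
    (∀ (s : Finset ℤ) (f : ℤ → SchwartzMap ℂ ℂ), (2 * n : ℤ) ∉ s → (∀ m ∈ s, HasType m (f m)) →
      s.card * (13 / 2 * (n : ℝ)) ^ (1 - 2 / p) ≤ K n p → Bound n p (K n p) (∑ m ∈ s, f m)) ∧
    (n = 2 ∨ Real.exp (32 * (n : ℝ) ^ 2) ≤ p → ∀ (m : ℤ) (f : SchwartzMap ℂ ℂ), HasType m f →
      Bound n p (K n p) f) := by
  have h1 : ∀ (m : ℤ) (f : SchwartzMap ℂ ℂ), m ≠ 2 * n → HasType m f →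
      Bound n p ((13 / 2 * (n : ℝ)) ^ (1 - 2 / p)) f ∧ Bound n p (K n p) f := by
    intro m f hm hf
    have key := Pool.Agent.U307.RAD.all3 n m p hn hp hm f hf
    refine ⟨key, key.trans ?_⟩
    have := (Pool.Agent.U307.RAD.num2 n p hn hp).2
    unfold K
    gcongr
  refine ⟨h1, fun m f hm hf => ?_, ?_, ?_⟩
  · refine (Pool.Agent.U307.RAD.low n m p hn hm hp f hf).trans ?_
    have h1 := (Pool.Agent.U307.RAD.num2 n p hn hp).2
    have hn1 : (1 : ℝ) ≤ n := by exact_mod_cast hn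
    have hn0 : (0 : ℝ) < n := by linarith
    have hs : 0 ≤ 1 - 2 / p := by
      rw [sub_nonneg, div_le_one (by linarith)]
      exact hp
    have h2 : (4 * (n : ℝ) ^ (3 / 4 : ℝ)) ^ (1 - 2 / p) ≤
        ((n : ℝ) ^ (-(1 / 4) : ℝ)) ^ (1 - 2 / p) * (13 / 2 * (n : ℝ)) ^ (1 - 2 / p) := by
      rw [← Real.mul_rpow (by positivity) (by positivity)]
      refine Real.rpow_le_rpow (by positivity) ?_ hs
      have e : (n : ℝ) ^ (-(1 / 4) : ℝ) * n = (n : ℝ) ^ (3 / 4 : ℝ) := by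
        nth_rewrite 2 [← Real.rpow_one (n : ℝ)]
        rw [← Real.rpow_add hn0]
        norm_num
      have e2 : (n : ℝ) ^ (-(1 / 4) : ℝ) * (13 / 2 * n) = 13 / 2 * (n : ℝ) ^ (3 / 4 : ℝ) := by
        rw [← e]; ring
      rw [e2]
      gcongr
      norm_num
    have h3 : (4 * (n : ℝ) ^ (3 / 4 : ℝ)) ^ (1 - 2 / p) ≤
        ((n : ℝ) ^ (-(1 / 4) : ℝ)) ^ (1 - 2 / p) * K n p :=
      h2.trans (mul_le_mul_of_nonneg_left h1 (by positivity))
    gcongr
  · intro s f hs hf hc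
    have hs' : ∀ m ∈ s, m ≠ 2 * n := fun m hm h => hs (h ▸ hm)
    refine (Pool.Agent.U307.RAD.sums3 n p hn hp s hs' f hf).trans ?_
    gcongr
  · intro hnp m f hf
    by_cases hm : m = 2 * n
    · have hf' : ∀ a z : ℂ, ‖a‖ = 1 → f (a * z) = a ^ (2 * n) * f z := by
        intro a z ha
        rw [hf a z ha, hm]
        norm_cast
      refine Pool.Agent.U307.RAD.Ext3.ext n hn p ?_ f hf'
      rcases hnp with h | h
      · exact Or.inl ⟨h, hp⟩
      · exact Or.inr h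
    · exact (h1 m f hm hf).2

end Pool.Agent.Results.MP_dd244f_an.AllTypesButOne
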