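import Pool.Agent.U307.RAD.Main3
import Pool.Agent.U307.RAD.Main4

/-!
# The bound `(1/q)_n / (1/p)_n` for powers of the Beurling transform: the extremal type on annuli

A function `f` has angular type `m` if `f (r e^{iθ}) = e^{i m θ} φ(r)`. The near extremal functions for
`T ^ n` on `L ^ p`, `p > 2`, are of type `2 n` and are spread over annuli `a ≤ |z| ≤ b` with `b / a`
tending to infinity. Here, for all `n ≥ 1` and all real `p ≥ 2`, the inequality of the question is proved
for functions of type `2 n` which are supported in an annulus `a ≤ |z| ≤ b` with `b ≤ 3 a`, or more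
generally if `(n M) ^ (1 - 2/p)` is at most the constant of the question for some
`M > 2 + 4 log (b / a)`. With `AllTypesButOne` it follows for all functions of any one type supported in
such an annulus. An outline of the proof is in the file `ExtremalTypeOnAnnuli` of `MP_3dd6d4_an`.
-/

set_option autoImplicit false

open MeasureTheory

namespace Pool.Agent.Results.MP_dd244f_an.ExtremalTypeOnAnnuli

/-- The `n`-th power of the Beurling transform of a Schwartz function: the Fourier multiplier with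
symbol `(conj ξ / ξ) ^ n`, in the literal form of the frozen statement. -/
noncomputable def T (n : ℕ) (f : SchwartzMap ℂ ℂ) (z : ℂ) : ℂ :=
  ∫ ξ : ℂ,
    Complex.exp (2 * (Real.pi : ℂ) * Complex.I * ((z.re * ξ.re + z.im * ξ.im : ℝ) : ℂ)) *
      ((starRingEnd ℂ ξ / ξ) ^ n *
        ∫ w : ℂ, Complex.exp (-(2 * (Real.pi : ℂ) * Complex.I *
          ((w.re * ξ.re + w.im * ξ.im : ℝ) : ℂ))) * f w)

/-- The constant `(1/q)_n / (1/p)_n` of the question. -/
noncomputable def K (n : ℕ) (p : ℝ) : ℝ :=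
  (ascPochhammer ℝ n).eval (1 - 1 / p) / (ascPochhammer ℝ n).eval (1 / p)

/-- `f` has angular type `m`: `f (r e^{iθ}) = e^{i m θ} φ(r)`. -/
def HasType (m : ℤ) (f : SchwartzMap ℂ ℂ) : Prop := ∀ c z : ℂ, ‖c‖ = 1 → f (c * z) = c ^ m * f z

/-- The inequality `‖T ^ n f‖_p ≤ C ‖f‖_p`. -/
def Bound (n : ℕ) (p C : ℝ) (f : SchwartzMap ℂ ℂ) : Prop :=
  eLpNorm (T n f) (ENNReal.ofReal p) volume ≤
    ENNReal.ofReal C * eLpNorm (fun z : ℂ => f z) (ENNReal.ofReal p) volume

/-- Let `n ≥ 1`, `p ≥ 2` real, `0 < a ≤ b`, let `f` vanish outside of the annulus `a ≤ |z| ≤ b`, and let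
`f` be of any one type `m`. If `b ≤ 3 a`, or if `(n M) ^ (1 - 2/p) ≤ K n p` for some
`M > 2 + 4 log (b / a)`, then `‖T ^ n f‖_p ≤ K n p ‖f‖_p`, the inequality of the question. -/
theorem result (n : ℕ) (p a b : ℝ) (hn : 1 ≤ n) (hp : 2 ≤ p) (ha : 0 < a) (hab : a ≤ b)
    (f : SchwartzMap ℂ ℂ) (hs : ∀ z, f z ≠ 0 → a ≤ ‖z‖ ∧ ‖z‖ ≤ b) (m : ℤ) (hf : HasType m f)
    (hc : b ≤ 3 * a ∨ ∃ M : ℝ, 2 + 4 * Real.log (b / a) < M ∧ (n * M) ^ (1 - 2 / p) ≤ K n p) :
    Bound n p (K n p) f := by
  by_cases hm : m = 2 * n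
  · subst hm
    have h1 : ∀ M : ℝ, 2 + 4 * Real.log (b / a) < M → Bound n p ((n * M) ^ (1 - 2 / p)) f := by
      intro M hM
      refine Pool.Agent.U307.RAD.ann4 n p a b M hn hp ha hab hM f (fun c z hc => ?_) hs
      rw [hf c z hc]
      norm_cast
    obtain ⟨M, hM, hK⟩ : ∃ M : ℝ, 2 + 4 * Real.log (b / a) < M ∧ (n * M) ^ (1 - 2 / p) ≤ K n p := by
      rcases hc with h | h
      · refine ⟨13 / 2, ?_, ?_⟩
        · have h2 : Real.log (b / a) ≤ Real.log 3 := by
            refine Real.log_le_log (div_pos (by linarith) ha) ?_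
            rw [div_le_iff₀ ha]
            exact h
          have h3 : Real.log 3 < 9 / 8 := by
            rw [Real.log_lt_iff_lt_exp (by norm_num)]
            have h4 := Real.sum_le_exp_of_nonneg (x := (9 / 8 : ℝ)) (by norm_num) 6
            refine lt_of_lt_of_le ?_ h4
            norm_num [Finset.sum_range_succ, Nat.factorial]
          linarith
        · have := (Pool.Agent.U307.RAD.num2 n p hn hp).2
          rw [mul_comm]
          exact this
      · exact h
    refine (h1 M hM).trans ?_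
    gcongr
  · refine (Pool.Agent.U307.RAD.all3 n m p hn hp hm f hf).trans ?_
    have := (Pool.Agent.U307.RAD.num2 n p hn hp).2
    unfold K
    gcongr

end Pool.Agent.Results.MP_dd244f_an.ExtremalTypeOnAnnuli
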